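import Pool.Agent.Lead.Sok
import Pool.Agent.Lead.SokDefs

namespace Pool.Agent.Results.MP_1116a9_gt.Q1

open Pool.Agent.Lead.Sok

theorem result : ∀ (K : Type) [TopologicalSpace K] [CompactSpace K] [T2Space K], Scattered K →
    (∃ n : ℕ, (fun A : Set K => derivedSet A ∩ A)^[n] Set.univ = ∅) →
    @Sokolov K (omegaMod K) := by
  intro K tK _ _ hs _ F hF
  obtain ⟨f, h1, h2, h3⟩ := @sokolov K tK _ _ K (omegaMod K) (Equiv.refl K) hs (by
    unfold omegaMod
    congr 1
    ext S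
    exact isGδ_iff_eq_iInter_nat) F hF
  refine ⟨f, h1, ⟨Set.range fun x => {x}, ?_, fun U _ x hx =>
    ⟨{x}, Set.mem_range_self x, rfl, Set.singleton_subset_iff.2 hx⟩⟩, h3⟩
  have := h2.to_subtype
  exact Set.countable_range _

end Pool.Agent.Results.MP_1116a9_gt.Q1
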